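import Mathlib
import Pool.Agent.X57.Theta5

/-!
# Contracting an edge can increase the mean subtree order
-/

namespace Pool.Agent.Results.MP_e83d06_co.ContractionCounterexample

open SimpleGraph Finset

/-- The number `s_k(G)` of subtrees of `G` with `k` vertices: a subtree is a subgraph which is a
tree. -/
noncomputable def numSubtrees {V : Type} (G : SimpleGraph V) (k : ℕ) : ℕ :=
  {H : G.Subgraph | H.coe.IsTree ∧ H.verts.ncard = k}.ncard

/-- The mean subtree order of a finite graph `G` with `n` vertices: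
`(∑_{k=1}^n k s_k(G)) / (∑_{k=1}^n s_k(G))`. -/
noncomputable def mu {V : Type} (G : SimpleGraph V) : ℝ :=
  (∑ k ∈ Icc 1 (Nat.card V), (k : ℝ) * numSubtrees G k) /
    ∑ k ∈ Icc 1 (Nat.card V), (numSubtrees G k : ℝ)

/-- The contraction of the edge `uv`: the vertex `v` is removed, and the vertex `u` (which now
stands for the merged vertex) is adjacent to all the other vertices that were adjacent to `u`
or to `v`. -/
def contract {V : Type} (G : SimpleGraph V) (u v : V) : SimpleGraph {x : V // x ≠ v} where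
  Adj x y := x ≠ y ∧ (G.Adj x y ∨ (x.1 = u ∧ G.Adj v y) ∨ (y.1 = u ∧ G.Adj v x))
  symm := ⟨fun x y h => ⟨h.1.symm, by
    rcases h.2 with h | h | h
    · exact Or.inl h.symm
    · exact Or.inr (Or.inr h)
    · exact Or.inr (Or.inl h)⟩⟩
  loopless := ⟨fun x h => h.1 rfl⟩

open Pool.Agent.X57

lemma sum_num {V : Type} [Finite V] (G : SimpleGraph V) (f : ℕ → ℝ) :
    ∑ k ∈ Icc 1 (Nat.card V), f k * (numSubtrees G k : ℝ) = ∑ H ∈ trees G, f H.verts.ncard := by
  classical
  have h1 : ∀ H ∈ trees G, H.verts.ncard ∈ Icc 1 (Nat.card V) := by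
    intro H hH
    rw [mem_trees] at hH
    rw [mem_Icc]
    constructor
    · obtain ⟨⟨x, hx⟩⟩ := hH.connected.nonempty
      exact (Set.ncard_pos (Set.toFinite _)).2 ⟨x, hx⟩
    · rw [← Set.ncard_univ]
      exact Set.ncard_le_ncard (Set.subset_univ _)
  rw [← sum_fiberwise_of_maps_to h1]
  apply sum_congr rfl
  intro k _
  have h2 : (numSubtrees G k : ℝ) = (((trees G).filter (fun H => H.verts.ncard = k)).card : ℝ) := by
    unfold numSubtrees
    rw [← Set.ncard_coe_finset]
    congr 2
    ext H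
    simp [mem_trees]
  rw [h2, sum_congr rfl (fun H hH => by rw [(mem_filter.1 hH).2]), sum_const, nsmul_eq_mul,
    mul_comm]

lemma mu_eq {V : Type} [Finite V] (G : SimpleGraph V) :
    mu G = (∑ H ∈ trees G, (H.verts.ncard : ℝ)) / (∑ H ∈ trees G, (1 : ℝ)) := by
  unfold mu
  rw [sum_num G (fun k => (k : ℝ)), ← sum_num G (fun _ => 1)]
  simp

/-- `G` with a new vertex attached to `u` -/
def pend {V : Type} (G : SimpleGraph V) (u : V) : SimpleGraph (Option V) where
  Adj x y := (∃ a b, x = some a ∧ y = some b ∧ G.Adj a b) ∨ (x = none ∧ y = some u) ∨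
    (x = some u ∧ y = none)
  symm := ⟨by
    rintro x y (⟨a, b, h1, h2, h3⟩ | ⟨h1, h2⟩ | ⟨h1, h2⟩)
    · exact Or.inl ⟨b, a, h2, h1, h3.symm⟩
    · exact Or.inr (Or.inr ⟨h2, h1⟩)
    · exact Or.inr (Or.inl ⟨h2, h1⟩)⟩
  loopless := ⟨by
    rintro x (⟨a, b, h1, h2, h3⟩ | ⟨h1, h2⟩ | ⟨h1, h2⟩)
    · rw [h1] at h2
      exact h3.ne (Option.some.inj h2)
    · rw [h1] at h2; exact absurd h2 (by simp)
    · rw [h1] at h2; exact absurd h2 (by simp)⟩

lemma pend_some {V : Type} {G : SimpleGraph V} {u : V} (a b : V) :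
    (pend G u).Adj (some a) (some b) ↔ G.Adj a b := by
  constructor
  · rintro (⟨c, d, h1, h2, h3⟩ | ⟨h1, h2⟩ | ⟨h1, h2⟩)
    · rw [Option.some.inj h1, Option.some.inj h2]; exact h3
    · exact absurd h1 (by simp)
    · exact absurd h2 (by simp)
  · intro h
    exact Or.inl ⟨a, b, rfl, rfl, h⟩

/-- the embedding of `G` -/
def emb {V : Type} (G : SimpleGraph V) (u : V) : G ↪g pend G u where
  toFun := some
  inj' := Option.some_injective V
  map_rel_iff' := by
    intro a b
    exact pend_some a b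

/-- the isomorphism of `G` with the contraction -/
def emb2 {V : Type} (G : SimpleGraph V) (u : V) : G ↪g contract (pend G u) (some u) none where
  toFun x := ⟨some x, by simp⟩
  inj' := by
    intro x y h
    simpa using h
  map_rel_iff' := by
    intro a b
    constructor
    · rintro ⟨h1, h2 | ⟨h2, h3⟩ | ⟨h2, h3⟩⟩
      · exact (pend_some a b).1 h2
      · exfalso
        rcases h3 with ⟨c, d, h3, -, -⟩ | ⟨-, h3⟩ | ⟨h3, -⟩
        · exact absurd h3 (by simp)
        · apply h1
          apply Subtype.ext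
          exact h2.trans h3.symm
        · exact absurd h3 (by simp)
      · exfalso
        rcases h3 with ⟨c, d, h3, -, -⟩ | ⟨-, h3⟩ | ⟨h3, -⟩
        · exact absurd h3 (by simp)
        · apply h1
          apply Subtype.ext
          exact h3.trans h2.symm
        · exact absurd h3 (by simp)
    · intro h
      refine ⟨?_, Or.inl ((pend_some a b).2 h)⟩
      intro h2
      have := congrArg Subtype.val h2
      exact h.ne (Option.some.inj this)

lemma sum_contract {V : Type} [Finite V] (G : SimpleGraph V) (u : V) (f : ℕ → ℝ) :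
    ∑ K ∈ trees (contract (pend G u) (some u) none), f K.verts.ncard =
      ∑ H ∈ trees G, f H.verts.ncard := by
  classical
  have h := sum_embedding (emb2 G u) (fun S => f S.ncard)
  have h2 : (trees (contract (pend G u) (some u) none)).filter
      (fun K => K.verts ⊆ Set.range (emb2 G u)) = trees (contract (pend G u) (some u) none) := by
    rw [filter_eq_self]
    rintro K - ⟨x, hx⟩ -
    cases x with
    | none => exact absurd rfl hx
    | some a => exact ⟨a, rfl⟩
  rw [h2] at h
  rw [h]
  apply sum_congr rfl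
  intro H _
  rw [Set.ncard_image_of_injective _ (emb2 G u).injective]

open scoped Classical in
lemma sum_pend {V : Type} [Finite V] (G : SimpleGraph V) (u : V) (f : ℕ → ℝ) :
    ∑ K ∈ trees (pend G u), f K.verts.ncard =
      ∑ H ∈ trees G, f H.verts.ncard +
        (f 1 + ∑ H ∈ trees G, if u ∈ H.verts then f (H.verts.ncard + 1) else 0) := by
  classical
  have hsub : ∀ K : (pend G u).Subgraph, none ∉ K.verts ↔ K.verts ⊆ Set.range (emb G u) := by
    intro K
    constructor
    · intro h x hx
      cases x with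
      | none => exact absurd hx h
      | some a => exact ⟨a, rfl⟩
    · intro h h2
      obtain ⟨a, ha⟩ := h h2
      exact absurd ha (Option.some_ne_none a)
  rw [← sum_filter_add_sum_filter_not (trees (pend G u)) (fun K => none ∉ K.verts)]
  congr 1
  · have h := sum_embedding (emb G u) (fun S => f S.ncard)
    rw [filter_congr (fun K _ => hsub K), h]
    apply sum_congr rfl
    intro H _
    rw [Set.ncard_image_of_injective _ (emb G u).injective]
  · have huv : (pend G u).Adj (some u) none := Or.inr (Or.inr ⟨rfl, rfl⟩)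
    have hleaf : ∀ y, (pend G u).Adj none y → y = some u := by
      rintro y (⟨c, d, h3, -, -⟩ | ⟨-, h3⟩ | ⟨h3, -⟩)
      · exact absurd h3 (by simp)
      · exact h3
      · exact absurd h3 (by simp)
    have h := sum_leaf huv hleaf f
    simp only [not_not]
    rw [h]
    congr 1
    have h3 := sum_embedding (emb G u) (fun S => if some u ∈ S then f (S.ncard + 1) else 0)
    have hn : ∀ H : G.Subgraph, (emb G u '' H.verts).ncard = H.verts.ncard := fun H =>
      Set.ncard_image_of_injective _ (emb G u).injective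
    have h4 : ∀ H : G.Subgraph, some u ∈ (emb G u) '' H.verts ↔ u ∈ H.verts := by
      intro H
      exact (emb G u).injective.mem_set_image
    simp only [h4, hn] at h3
    rw [← h3, filter_congr (fun K _ => (hsub K).symm), ← sum_filter, filter_filter]

open Pool.Agent.X57.Theta

lemma theta_connected (k l : ℕ) : (theta (LL k l)).Connected := by
  have hadj : ∀ j i, i ≤ LL k l j → (theta (LL k l)).Adj (pos _ j i) (pos _ j (i + 1)) :=
    fun j i h => ⟨j, i, h, Or.inl ⟨rfl, rfl⟩⟩
  have key : ∀ x, (theta (LL k l)).Reachable (hs _) x := by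
    intro x
    rcases hub_cases x with h | h | ⟨j, i, h1, h2, h3⟩
    · rw [h]
    · have := reach_up (R := theta (LL k l)) (j := none) (a := 0) (LL k l none + 1) (by omega)
        (fun i _ h => hadj none i (by omega))
      rw [pos_zero, pos_last] at this
      rw [h]
      exact this
    · have := reach_up (R := theta (LL k l)) (j := j) (a := 0) i (by omega)
        (fun i' _ h => hadj j i' (by omega))
      rw [pos_zero] at this
      rw [h3]
      exact this
  have : Nonempty (Vtx (LL k l)) := ⟨hs _⟩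
  exact ⟨fun x y => (key x).symm.trans (key y)⟩

lemma pend_connected {V : Type} {G : SimpleGraph V} (hG : G.Connected) (u : V) :
    (pend G u).Connected := by
  have key : ∀ x, (pend G u).Reachable (some u) x := by
    intro x
    cases x with
    | none => exact Adj.reachable (Or.inr (Or.inr ⟨rfl, rfl⟩))
    | some a => exact (hG.preconnected u a).map (emb G u).toHom
  have : Nonempty (Option V) := ⟨none⟩
  exact ⟨fun x y => (key x).symm.trans (key y)⟩

lemma cc_50 : cc 50 = 1326 := by
  unfold cc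
  rw [card_eq_sum_ones, sum_II]
  have : ∑ _p ∈ (range (50 + 1 + 1) ×ˢ range (50 + 1 + 1)).filter (fun p : ℕ × ℕ => p.1 < p.2), 1 =
      1326 := by decide +kernel
  rw [this]
  norm_num

lemma mm_50 : mm 50 = 100 / 3 := by
  have h1 := cc_50
  unfold cc at h1
  unfold mm
  rw [h1, ← Nat.cast_sum, sum_II]
  have : ∑ p ∈ (range (50 + 1 + 1) ×ˢ range (50 + 1 + 1)).filter (fun p : ℕ × ℕ => p.1 < p.2),
      (50 - ((Ico p.1 p.2).card - 1)) = 44200 := by
    simp only [Nat.card_Ico]
    decide +kernel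
  rw [this]
  norm_num

/-- the final inequality -/
lemma final {C E r w N W : ℝ} (hC : 1000000 * E ≤ C) (hC2 : 1000000 ≤ C) (hE : 0 ≤ E)
    (hr1 : 1726 * C ≤ r) (hr2 : r ≤ 1726 * C + E)
    (hw0 : 0 ≤ w) (hw : w ≤ 11518512 * C + 10003 * E)
    (hN0 : 0 ≤ N) (hN : N ≤ 200 * C + E) (hW : 1337066 * C ≤ W) :
    (w + W + (1 + (w + r))) * (r + N) < (w + W) * (r + N + (1 + r)) := by
  have h1 : w * N ≤ (11518512 * C + 10003 * E) * (200 * C + E) :=
    mul_le_mul hw hN hN0 (by positivity)
  have hr0 : 0 ≤ r := by linarith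
  have h2 : (r + 1) * (r + N) ≤ (1726 * C + E + 1) * (1926 * C + 2 * E) :=
    mul_le_mul (by linarith) (by linarith) (by linarith) (by linarith)
  have h3 : 1337066 * C * (1726 * C) ≤ W * (r + 1) :=
    mul_le_mul hW (by linarith) (by linarith) (by linarith)
  have hE' : E ≤ C / 1000000 := by linarith
  have hCp : 0 < C := by linarith
  have h4 : (11518512 * C + 10003 * E) * (200 * C + E) ≤
      (11518513 * C) * (200.00001 * C) := by
    apply mul_le_mul <;> linarith
  have h5 : (1726 * C + E + 1) * (1926 * C + 2 * E) ≤ (1726.00001 * C) * (1926.00001 * C) := by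
    apply mul_le_mul <;> linarith
  nlinarith [mul_pos hCp hCp]

lemma big_C : (1000000 : ℝ) ≤ 1326 ^ 199 := by
  calc (1000000 : ℝ) ≤ 1326 ^ 2 := by norm_num
    _ ≤ 1326 ^ 199 := pow_le_pow_right₀ (by norm_num) (by norm_num)

lemma big_E : (1000000 : ℝ) * (4 * (((50 : ℕ) : ℝ) + 1) ^ 200 +
    (16 + ((200 : ℕ) : ℝ) * 4 ^ (50 + 1))) ≤ 1326 ^ 199 := by
  norm_num

/-- the inequality for the theta graph -/
lemma theta_ineq : mu (pend (theta (LL 200 50)) (uu 200 50)) <
    mu (contract (pend (theta (LL 200 50)) (uu 200 50)) (some (uu 200 50)) none) := by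
  classical
  have hl1 : 1 ≤ 50 := by norm_num
  set R : ℝ := ∑ H ∈ trees (theta (LL 200 50)), (if uu 200 50 ∈ H.verts then (1 : ℝ) else 0)
    with hR
  set N : ℝ := ∑ H ∈ trees (theta (LL 200 50)), (if uu 200 50 ∈ H.verts then (0 : ℝ) else 1)
    with hN
  set w : ℝ := ∑ H ∈ trees (theta (LL 200 50)),
    (if uu 200 50 ∈ H.verts then (1 : ℝ) else 0) * (H.verts.ncard : ℝ) with hw
  set W : ℝ := ∑ H ∈ trees (theta (LL 200 50)),
    (if uu 200 50 ∈ H.verts then (0 : ℝ) else 1) * (H.verts.ncard : ℝ) with hW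
  have e1 : ∑ H ∈ trees (theta (LL 200 50)), (1 : ℝ) = R + N := by
    rw [hR, hN, ← sum_add_distrib]
    apply sum_congr rfl
    intro H _
    split_ifs <;> ring
  have e2 : ∑ H ∈ trees (theta (LL 200 50)), (H.verts.ncard : ℝ) = w + W := by
    rw [hw, hW, ← sum_add_distrib]
    apply sum_congr rfl
    intro H _
    split_ifs <;> ring
  have e3 : ∑ H ∈ trees (theta (LL 200 50)),
      (if uu 200 50 ∈ H.verts then ((H.verts.ncard + 1 : ℕ) : ℝ) else 0) = w + R := by
    rw [hw, hR, ← sum_add_distrib]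
    apply sum_congr rfl
    intro H _
    split_ifs
    · push_cast; ring
    · ring
  have f1 := sum_pend (theta (LL 200 50)) (uu 200 50) (fun _ => 1)
  have f2 := sum_pend (theta (LL 200 50)) (uu 200 50) (fun n => (n : ℝ))
  have f3 := sum_contract (theta (LL 200 50)) (uu 200 50) (fun _ => 1)
  have f4 := sum_contract (theta (LL 200 50)) (uu 200 50) (fun n => (n : ℝ))
  rw [e1] at f1 f3
  rw [e2] at f2 f4
  rw [e3] at f2
  rw [mu_eq, mu_eq, f1, f2, f3, f4, Nat.cast_one, ← hR]
  -- the sums over the trees containing both hubs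
  set E : ℝ := ((restT 200 50).card : ℝ) with hE
  have hE0 : 0 ≤ E := Nat.cast_nonneg _
  have hEC : 1000000 * E ≤ 1326 ^ 199 := by
    refine le_trans ?_ big_E
    have := card_rest (k := 200) (l := 50)
    exact mul_le_mul_of_nonneg_left this (by norm_num)
  have hp : cc 50 ^ 200 = 1326 * 1326 ^ 199 := by rw [cc_50, ← pow_succ']
  have hp' : cc 50 ^ (200 - 1) = 1326 ^ 199 := by rw [cc_50]
  have g1 := both_count (k := 200) hl1 1 0
  have g2 := both_count (k := 200) hl1 0 1
  have g3 := both_size (k := 200) hl1 1 0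
  have g4 := both_size (k := 200) hl1 0 1
  rw [hp, hp'] at g1 g2 g3 g4
  rw [mm_50] at g3 g4
  generalize hCdef : (1326 : ℝ) ^ 199 = C at *
  have hC6 : 1000000 ≤ C := by rw [← hCdef]; exact big_C
  have r1 : R = ∑ T ∈ bothT 200 50, (if uu 200 50 ∈ T.verts then (1 : ℝ) else 0) +
      ∑ T ∈ restT 200 50, (if uu 200 50 ∈ T.verts then (1 : ℝ) else 0) := sum_split _
  have r2 : N = ∑ T ∈ bothT 200 50, (if uu 200 50 ∈ T.verts then (0 : ℝ) else 1) +
      ∑ T ∈ restT 200 50, (if uu 200 50 ∈ T.verts then (0 : ℝ) else 1) := sum_split _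
  have r3 : w = ∑ T ∈ bothT 200 50, (if uu 200 50 ∈ T.verts then (1 : ℝ) else 0) *
      (T.verts.ncard : ℝ) + ∑ T ∈ restT 200 50, (if uu 200 50 ∈ T.verts then (1 : ℝ) else 0) *
      (T.verts.ncard : ℝ) := sum_split _
  have r4 : W = ∑ T ∈ bothT 200 50, (if uu 200 50 ∈ T.verts then (0 : ℝ) else 1) *
      (T.verts.ncard : ℝ) + ∑ T ∈ restT 200 50, (if uu 200 50 ∈ T.verts then (0 : ℝ) else 1) *
      (T.verts.ncard : ℝ) := sum_split _
  -- the rest
  have s1 : 0 ≤ ∑ T ∈ restT 200 50, (if uu 200 50 ∈ T.verts then (1 : ℝ) else 0) :=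
    sum_nonneg (fun T _ => by split_ifs <;> norm_num)
  have s1' : ∑ T ∈ restT 200 50, (if uu 200 50 ∈ T.verts then (1 : ℝ) else 0) ≤ E := by
    calc _ ≤ ∑ T ∈ restT 200 50, (1 : ℝ) :=
          sum_le_sum (fun T _ => by split_ifs <;> norm_num)
      _ = E := by rw [sum_const, nsmul_eq_mul, mul_one]
  have s2 : 0 ≤ ∑ T ∈ restT 200 50, (if uu 200 50 ∈ T.verts then (0 : ℝ) else 1) :=
    sum_nonneg (fun T _ => by split_ifs <;> norm_num)
  have s2' : ∑ T ∈ restT 200 50, (if uu 200 50 ∈ T.verts then (0 : ℝ) else 1) ≤ E := by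
    calc _ ≤ ∑ T ∈ restT 200 50, (1 : ℝ) :=
          sum_le_sum (fun T _ => by split_ifs <;> norm_num)
      _ = E := by rw [sum_const, nsmul_eq_mul, mul_one]
  have s3 : 0 ≤ ∑ T ∈ restT 200 50, (if uu 200 50 ∈ T.verts then (1 : ℝ) else 0) *
      (T.verts.ncard : ℝ) :=
    sum_nonneg (fun T _ => by
      have : (0 : ℝ) ≤ (T.verts.ncard : ℝ) := Nat.cast_nonneg _
      split_ifs <;> linarith)
  have s3' : ∑ T ∈ restT 200 50, (if uu 200 50 ∈ T.verts then (1 : ℝ) else 0) *
      (T.verts.ncard : ℝ) ≤ 10003 * E := by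
    calc _ ≤ ∑ T ∈ restT 200 50, (10003 : ℝ) :=
          sum_le_sum (fun T _ => by
            have h1 := ncard_le T
            have h2 : (0 : ℝ) ≤ (T.verts.ncard : ℝ) := Nat.cast_nonneg _
            have h3 : (T.verts.ncard : ℝ) ≤ 10003 := by
              refine h1.trans ?_
              norm_num
            split_ifs <;> linarith)
      _ = 10003 * E := by rw [sum_const, nsmul_eq_mul, mul_comm]
  have s4 : 0 ≤ ∑ T ∈ restT 200 50, (if uu 200 50 ∈ T.verts then (0 : ℝ) else 1) *
      (T.verts.ncard : ℝ) :=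
    sum_nonneg (fun T _ => by
      have : (0 : ℝ) ≤ (T.verts.ncard : ℝ) := Nat.cast_nonneg _
      split_ifs <;> linarith)
  rw [g1] at r1
  rw [g2] at r2
  rw [g3] at r3
  rw [g4] at r4
  have hC0 : 0 < C := by linarith
  generalize ∑ T ∈ restT 200 50, (if uu 200 50 ∈ T.verts then (1 : ℝ) else 0) = ρ1 at *
  generalize ∑ T ∈ restT 200 50, (if uu 200 50 ∈ T.verts then (0 : ℝ) else 1) = ρ2 at *
  generalize ∑ T ∈ restT 200 50, (if uu 200 50 ∈ T.verts then (1 : ℝ) else 0) *
      (T.verts.ncard : ℝ) = ρ3 at *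
  generalize ∑ T ∈ restT 200 50, (if uu 200 50 ∈ T.verts then (0 : ℝ) else 1) *
      (T.verts.ncard : ℝ) = ρ4 at *
  norm_num at r1 r2 r3 r4
  have hr1 : 1726 * C ≤ R := by linarith
  have hr2 : R ≤ 1726 * C + E := by linarith
  have hw0 : 0 ≤ w := by linarith
  have hw1 : w ≤ 11518512 * C + 10003 * E := by linarith
  have hN0 : 0 ≤ N := by linarith
  have hN1 : N ≤ 200 * C + E := by linarith
  have hW1 : 1337066 * C ≤ W := by linarith
  have hfin := final hEC hC6 hE0 hr1 hr2 hw0 hw1 hN0 hN1 hW1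
  rw [div_lt_div_iff₀ (by linarith) (by linarith)]
  exact hfin

/-- **Q1 is false, and more: contracting an edge can increase the mean subtree order.** There are a
finite connected graph `G` and an edge `uv` of `G`, where `v` is a vertex of degree `1` (so `uv` is
a bridge), with `μ(G) - μ(G/uv) < 0`. In particular the inequality `μ(G) - μ(G/e) ≥ 1/3` does not
hold for all connected graphs `G` and all edges `e`. -/
theorem result :
    (∃ (V : Type) (_ : Finite V) (G : SimpleGraph V) (u v : V),
      G.Connected ∧ G.Adj u v ∧ (∀ y, G.Adj v y → y = u) ∧ mu G - mu (contract G u v) < 0) ∧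
    ¬ ∀ (V : Type) [Finite V] (G : SimpleGraph V) (u v : V), G.Connected → G.Adj u v →
      1 / 3 ≤ mu G - mu (contract G u v) := by
  have main : ∃ (V : Type) (_ : Finite V) (G : SimpleGraph V) (u v : V),
      G.Connected ∧ G.Adj u v ∧ (∀ y, G.Adj v y → y = u) ∧ mu G - mu (contract G u v) < 0 := by
    refine ⟨Option (Vtx (LL 200 50)), inferInstance, pend (theta (LL 200 50)) (uu 200 50),
      some (uu 200 50), none, pend_connected (theta_connected 200 50) _,
      Or.inr (Or.inr ⟨rfl, rfl⟩), ?_, ?_⟩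
    · rintro y (⟨c, d, h3, -, -⟩ | ⟨-, h3⟩ | ⟨h3, -⟩)
      · exact absurd h3 (by simp)
      · exact h3
      · exact absurd h3 (by simp)
    · have := theta_ineq
      linarith
  refine ⟨main, fun h => ?_⟩
  obtain ⟨V, hV, G, u, v, h1, h2, -, h3⟩ := main
  have := h V G u v h1 h2
  linarith

end Pool.Agent.Results.MP_e83d06_co.ContractionCounterexample
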